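import Pool.Agent.H47.WTH.Stmts

/-!
# WTH, module WIN: one window
-/

set_option autoImplicit false

namespace Pool.WTH

open Finset Pool.Agent.H98.ABCR Pool.SHA Pool.VIO

namespace WIN

theorem small_card (B : ℝ) (F : Finset (ℕ × ℕ))
    (h : ∀ v ∈ F, ((v.1 + v.2 : ℕ) : ℝ) ≤ B) : (F.card : ℝ) ≤ ((⌊B⌋₊ : ℝ) + 1) ^ 2 := by
  have hs : F ⊆ Finset.range (⌊B⌋₊ + 1) ×ˢ Finset.range (⌊B⌋₊ + 1) := by
    intro v hv
    have h1 : v.1 + v.2 ≤ ⌊B⌋₊ := Nat.le_floor (h v hv)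
    rw [Finset.mem_product, Finset.mem_range, Finset.mem_range]
    omega
  have h2 := Finset.card_le_card hs
  rw [Finset.card_product, Finset.card_range] at h2
  have h3 : (F.card : ℝ) ≤ (((⌊B⌋₊ + 1) * (⌊B⌋₊ + 1) : ℕ) : ℝ) := by exact_mod_cast h2
  refine h3.trans (le_of_eq ?_)
  push_cast
  ring

/-- the union over the four levels -/
theorem four {ι : Type*} [DecidableEq ι] (F : Finset ι) (p : Fin 4 → ι → Prop)
    [∀ m, DecidablePred (p m)] (B : ℝ)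
    (hF : ∀ v ∈ F, ∃ m, p m v) (hB : ∀ m, ((F.filter (p m)).card : ℝ) ≤ B) :
    (F.card : ℝ) ≤ 4 * B := by
  classical
  have hs : F ⊆ Finset.univ.biUnion (fun m => F.filter (p m)) := by
    intro v hv
    obtain ⟨m, hm⟩ := hF v hv
    exact Finset.mem_biUnion.2 ⟨m, Finset.mem_univ _, Finset.mem_filter.2 ⟨hv, hm⟩⟩
  have h1 := (Finset.card_le_card hs).trans Finset.card_biUnion_le
  have h2 : (F.card : ℝ) ≤ ∑ m : Fin 4, ((F.filter (p m)).card : ℝ) := by exact_mod_cast h1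
  refine h2.trans ?_
  calc ∑ m : Fin 4, ((F.filter (p m)).card : ℝ) ≤ ∑ _m : Fin 4, B :=
        Finset.sum_le_sum fun m _ => hB m
    _ = 4 * B := by
        rw [Finset.sum_const, nsmul_eq_mul, Finset.card_univ, Fintype.card_fin]
        norm_num

end WIN

open WIN in
/-- **WIN**. -/
theorem win_thm (h1 : S_CLA) (h2 : S_CHW) (h3 : Pool.RIC.S_RCH) (h4 : S_CLC) : S_WIN := by
  classical
  intro ε hε
  obtain ⟨ν, hν⟩ : ∃ ν, ν = min (ε / 4) 1 := ⟨_, rfl⟩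
  have hν0 : 0 < ν := by rw [hν]; exact lt_min (by linarith) one_pos
  have hν1 : ν ≤ 1 := by rw [hν]; exact min_le_right _ _
  have hνε : ν ≤ ε / 4 := by rw [hν]; exact min_le_left _ _
  have hcla : ∀ c : ℝ, ∃ lam κ0 X0 : ℝ, (0 < c → c ≤ 1 → 0 < lam ∧ 1 ≤ κ0 ∧ 3 ≤ X0 ∧
      ∀ (X h0 Y : ℝ) (F : Finset (ℕ × ℕ)), X0 ≤ X → κ0 * Real.log X ≤ h0 → 1 ≤ Y →
        (∀ v ∈ F, OptA X h0 c (ν / 2) lam Y v) → (F.card : ℝ) ≤ 3 * Y * X ^ (ε / 4)) := by
    intro c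
    by_cases hc : 0 < c ∧ c ≤ 1
    · obtain ⟨lam, κ0, X0, a1, a2, a3, a4⟩ := h1 c (ν / 2) (ε / 4) hc.1 hc.2 (by linarith)
        (by linarith) (by linarith)
      exact ⟨lam, κ0, X0, fun _ _ => ⟨a1, a2, a3, a4⟩⟩
    · exact ⟨1, 1, 1, fun b1 b2 => absurd ⟨b1, b2⟩ hc⟩
  choose Λ κ0 X0 hΛ using hcla
  obtain ⟨c, K1, hc, hK1, hch⟩ := h2 ν Λ hν0 hν1 (fun x hx hx1 => (hΛ x hx hx1).1)
  obtain ⟨K2, hK2, hclc⟩ := h4 ε hε
  have hκ0 : ∀ m, 1 ≤ κ0 (c m) := fun m => (hΛ (c m) (hc m).1 (hc m).2).2.1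
  have hX0 : ∀ m, 3 ≤ X0 (c m) := fun m => (hΛ (c m) (hc m).1 (hc m).2).2.2.1
  obtain ⟨K, hK⟩ : ∃ K, K = K1 + K2 + ∑ m, κ0 (c m) := ⟨_, rfl⟩
  have hS0 : 0 ≤ ∑ m, κ0 (c m) := Finset.sum_nonneg fun m _ => by linarith [hκ0 m]
  have hKm : ∀ m, κ0 (c m) ≤ K := by
    intro m
    have := Finset.single_le_sum (f := fun m => κ0 (c m)) (s := Finset.univ)
      (fun m _ => by linarith [hκ0 m]) (Finset.mem_univ m)
    linarith
  refine ⟨K, by linarith, fun κ hκ => ?_⟩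
  obtain ⟨C1, hC1, hR⟩ := h3 (max 3 (2 * κ)) ν (ε / 4) (le_max_left _ _) hν0 (by linarith)
  obtain ⟨C2, hC2, hC⟩ := hclc (2 * κ) (by linarith)
  obtain ⟨X1, hX1⟩ : ∃ X1, X1 = 3 + ∑ m, X0 (c m) := ⟨_, rfl⟩
  have hS1 : 0 ≤ ∑ m, X0 (c m) := Finset.sum_nonneg fun m _ => by linarith [hX0 m]
  have hXm : ∀ m, X0 (c m) ≤ X1 := by
    intro m
    have := Finset.single_le_sum (f := fun m => X0 (c m)) (s := Finset.univ)
      (fun m _ => by linarith [hX0 m]) (Finset.mem_univ m)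
    linarith
  obtain ⟨B, hB⟩ : ∃ B : ℝ, B = ((⌊Real.exp (2 * (κ * Real.log X1))⌋₊ : ℝ) + 1) ^ 2 := ⟨_, rfl⟩
  have hB0 : 0 ≤ B := by rw [hB]; positivity
  refine ⟨12 + 2 * C1 + C2 + B, by linarith, ?_⟩
  intro X h0 F hX hKh hhκ hF
  have hXpos : 0 < X := by linarith
  have hP1 : 1 ≤ X ^ (1 / 3 + ε) := Real.one_le_rpow hX (by linarith)
  have hP0 : 0 < X ^ (1 / 3 + ε) := by linarith
  by_cases hbig : X < X1
  · have hs : (F.card : ℝ) ≤ B := by
      rw [hB]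
      refine small_card _ F (fun v hv => ?_)
      obtain ⟨t1, -, -, -, t5⟩ := hF v hv
      have hpos : 0 < v.1 + v.2 := Nat.add_pos_left t1.1 _
      have hpos' : (0 : ℝ) < ((v.1 + v.2 : ℕ) : ℝ) := by exact_mod_cast hpos
      have hl : Real.log X ≤ Real.log X1 := Real.log_le_log hXpos hbig.le
      have h6 : Real.log ((v.1 + v.2 : ℕ) : ℝ) ≤ 2 * (κ * Real.log X1) := by
        have t5' : Real.log ((v.1 + v.2 : ℕ) : ℝ) ≤ 2 * h0 := t5
        have : κ * Real.log X ≤ κ * Real.log X1 := mul_le_mul_of_nonneg_left hl (by linarith)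
        linarith
      calc ((v.1 + v.2 : ℕ) : ℝ) = Real.exp (Real.log ((v.1 + v.2 : ℕ) : ℝ)) :=
            (Real.exp_log hpos').symm
        _ ≤ _ := Real.exp_le_exp.2 h6
    calc (F.card : ℝ) ≤ B * 1 := by linarith
      _ ≤ (12 + 2 * C1 + C2 + B) * X ^ (1 / 3 + ε) := by
          refine mul_le_mul (by linarith) hP1 (by norm_num) (by linarith)
  · have hX1le : X1 ≤ X := not_lt.1 hbig
    have hX3 : 3 ≤ X := by linarith
    have hlog : 0 ≤ Real.log X := Real.log_nonneg hX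
    have hlogpos : 0 < Real.log X := Real.log_pos (by linarith)
    set pA : Fin 4 → ℕ × ℕ → Prop :=
      fun m v => OptA X h0 (c m) (ν / 2) (Λ (c m)) (X ^ (1 / 3 + ν)) v with hpA
    set pB : ℕ × ℕ → Prop := fun v => ∃ i, (X / 2) ^ (1 / 3 : ℝ) ≤ (rad (coord v i) : ℝ) ∧
      Pool.RIC.Rich ν X (coord v i) with hpB
    set pC : ℕ × ℕ → Prop := fun v => ∃ p1 p2 : ℕ, p1.Prime ∧ p2.Prime ∧ p1 ≠ p2 ∧
      p1 ∣ nn v ∧ p2 ∣ nn v ∧ X ^ (1 / 3 : ℝ) < p1 ∧ X ^ (1 / 3 : ℝ) < p2 with hpC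
    have hmem : ∀ v ∈ F, (∃ m, pA m v) ∨ pB v ∨ pC v := by
      intro v hv
      obtain ⟨t1, t2, t3, t4, t5⟩ := hF v hv
      refine hch X h0 v hX3 ?_ t1 t2 t3 t4 t5
      refine le_trans (mul_le_mul_of_nonneg_right ?_ hlog) hKh
      linarith
    -- first family
    have hA : ((F.filter (fun v => ∃ m, pA m v)).card : ℝ) ≤ 12 * X ^ (1 / 3 + ε) := by
      have h5 := four (F.filter (fun v => ∃ m, pA m v)) pA (3 * X ^ (1 / 3 + ν) * X ^ (ε / 4))
        (fun v hv => (Finset.mem_filter.1 hv).2) (fun m => by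
          refine (hΛ (c m) (hc m).1 (hc m).2).2.2.2 X h0 (X ^ (1 / 3 + ν)) _
            ((hXm m).trans hX1le) ?_ (Real.one_le_rpow hX (by linarith)) ?_
          · exact le_trans (mul_le_mul_of_nonneg_right (hKm m) hlog) hKh
          · intro v hv
            exact (Finset.mem_filter.1 hv).2)
      refine h5.trans ?_
      have e1 : X ^ (1 / 3 + ν) * X ^ (ε / 4) ≤ X ^ (1 / 3 + ε) := by
        rw [← Real.rpow_add hXpos]
        exact Real.rpow_le_rpow_of_exponent_le hX (by linarith)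
      calc 4 * (3 * X ^ (1 / 3 + ν) * X ^ (ε / 4)) = 12 * (X ^ (1 / 3 + ν) * X ^ (ε / 4)) := by
            ring
        _ ≤ 12 * X ^ (1 / 3 + ε) := mul_le_mul_of_nonneg_left e1 (by norm_num)
    -- second family
    have hBf : ((F.filter pB).card : ℝ) ≤ 2 * C1 * X ^ (1 / 3 + ε) := by
      have hY1 : 1 ≤ (X / 2) ^ (1 / 3 : ℝ) := Real.one_le_rpow (by linarith) (by norm_num)
      have hYX : (X / 2) ^ (1 / 3 : ℝ) ≤ X := by
        calc (X / 2) ^ (1 / 3 : ℝ) ≤ (X / 2) ^ (1 : ℝ) :=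
              Real.rpow_le_rpow_of_exponent_le (by linarith) (by norm_num)
          _ = X / 2 := Real.rpow_one _
          _ ≤ X := by linarith
      have h5 := hR X ((X / 2) ^ (1 / 3 : ℝ)) (F.filter pB) hX hY1 hYX (by
        intro v hv
        rw [Finset.mem_filter] at hv
        obtain ⟨t1, t2, t3, t4, t5⟩ := hF v hv.1
        refine ⟨t1, t2, ?_, hv.2⟩
        have : 2 * h0 ≤ 2 * κ * Real.log X := by linarith
        refine t5.trans (this.trans ?_)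
        exact mul_le_mul_of_nonneg_right (le_max_right _ _) hlog)
      refine h5.trans ?_
      have hX2 : 0 < X / 2 := by linarith
      have e1 : Real.sqrt (X / (X / 2) ^ (1 / 3 : ℝ)) ≤ 2 * X ^ (1 / 3 : ℝ) := by
        have e2 : X / (X / 2) ^ (1 / 3 : ℝ) = 2 * (X / 2) ^ (2 / 3 : ℝ) := by
          rw [div_eq_iff (by positivity), mul_assoc, ← Real.rpow_add hX2]
          norm_num
          ring
        have e3 : (X / 2) ^ (2 / 3 : ℝ) = ((X / 2) ^ (1 / 3 : ℝ)) ^ 2 := by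
          rw [← Real.rpow_natCast, ← Real.rpow_mul hX2.le]
          norm_num
        have e4 : (X / 2) ^ (1 / 3 : ℝ) ≤ X ^ (1 / 3 : ℝ) :=
          Real.rpow_le_rpow hX2.le (by linarith) (by norm_num)
        have e5 : 0 ≤ (X / 2) ^ (1 / 3 : ℝ) := by positivity
        rw [e2, e3, Real.sqrt_le_left (by positivity)]
        nlinarith
      calc C1 * X ^ (ν + ε / 4) * Real.sqrt (X / (X / 2) ^ (1 / 3 : ℝ))
          ≤ C1 * X ^ (ν + ε / 4) * (2 * X ^ (1 / 3 : ℝ)) :=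
            mul_le_mul_of_nonneg_left e1 (by positivity)
        _ = 2 * C1 * (X ^ (ν + ε / 4) * X ^ (1 / 3 : ℝ)) := by ring
        _ = 2 * C1 * X ^ (ν + ε / 4 + 1 / 3) := by rw [← Real.rpow_add hXpos]
        _ ≤ 2 * C1 * X ^ (1 / 3 + ε) := by
            refine mul_le_mul_of_nonneg_left ?_ (by linarith)
            exact Real.rpow_le_rpow_of_exponent_le hX (by linarith)
    -- third family
    have hCf : ((F.filter pC).card : ℝ) ≤ C2 * X ^ (1 / 3 + ε) := by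
      refine hC X (F.filter pC) hX ?_
      intro v hv
      rw [Finset.mem_filter] at hv
      obtain ⟨t1, t2, t3, t4, t5⟩ := hF v hv.1
      refine ⟨t1, t2, ?_, ?_, hv.2⟩
      · refine le_trans (le_trans (mul_le_mul_of_nonneg_right ?_ hlog) hKh) t4
        linarith
      · have : 2 * h0 ≤ 2 * κ * Real.log X := by linarith
        exact t5.trans this
    have hun : F ⊆ F.filter (fun v => ∃ m, pA m v) ∪ (F.filter pB ∪ F.filter pC) := by
      intro v hv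
      rcases hmem v hv with h | h | h
      · exact Finset.mem_union_left _ (Finset.mem_filter.2 ⟨hv, h⟩)
      · exact Finset.mem_union_right _ (Finset.mem_union_left _ (Finset.mem_filter.2 ⟨hv, h⟩))
      · exact Finset.mem_union_right _ (Finset.mem_union_right _ (Finset.mem_filter.2 ⟨hv, h⟩))
    have hcard : (F.card : ℝ) ≤ ((F.filter (fun v => ∃ m, pA m v)).card : ℝ) +
        (((F.filter pB).card : ℝ) + ((F.filter pC).card : ℝ)) := by
      have h6 := (Finset.card_le_card hun).trans (Finset.card_union_le _ _)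
      have h7 := Finset.card_union_le (F.filter pB) (F.filter pC)
      have h8 : F.card ≤ (F.filter (fun v => ∃ m, pA m v)).card +
          ((F.filter pB).card + (F.filter pC).card) := by omega
      exact_mod_cast h8
    have hBP : 0 ≤ B * X ^ (1 / 3 + ε) := mul_nonneg hB0 hP0.le
    calc (F.card : ℝ) ≤ 12 * X ^ (1 / 3 + ε) + (2 * C1 * X ^ (1 / 3 + ε) + C2 * X ^ (1 / 3 + ε)) := by
          linarith
      _ ≤ (12 + 2 * C1 + C2 + B) * X ^ (1 / 3 + ε) := by linarith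

end Pool.WTH
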